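import Pool.Agent.Q269.GR.StE

/-! # Project GR (helper269), jobs GR-ENA, GR-EB1, GR-ENC: common lemmas on the cells (helper150) -/

set_option autoImplicit false
set_option linter.all false

open scoped Classical
open Finset Polynomial

namespace Pool.Agent.Q150.GR

open Pool.Agent.Q269.GR
open Pool.Agent.Y164.PS (L sg)

variable {k : Type} [Field k] [Fintype k]

/-! ### the typical twists in terms of a family of primes -/

theorem pr_filter (h7 : S_PRD) {Δ : k[X]} (hΔ : Δ ≠ 0) {m : ℕ} {P : Fin m → k[X]}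
    (hP : Pfam Δ P) (p : k[X] → Prop) [DecidablePred p] :
    ((pr (∏ i, P i)).filter p).card = (univ.filter fun i => p (P i)).card := by
  rw [((h7 k Δ hΔ).1 (Fin m) P hP).1, filter_image, card_image_of_injective _ hP.inj]

theorem pr_card (h7 : S_PRD) {Δ : k[X]} (hΔ : Δ ≠ 0) {m : ℕ} {P : Fin m → k[X]}
    (hP : Pfam Δ P) : (pr (∏ i, P i)).card = m := by
  rw [((h7 k Δ hΔ).1 (Fin m) P hP).1, card_image_of_injective _ hP.inj, card_univ,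
    Fintype.card_fin]

/-- the typical twists (A) in terms of the degrees -/
def TyA (t : ℕ) {m : ℕ} (d : Fin m → ℕ) : Prop :=
  m ≤ t ^ 12 ∧ 100 * (univ.filter fun i => d i ≤ t ^ 40).card ≤ t ∧
  (∀ i j, t ^ 40 < d i → d i = d j → i = j) ∧
  ∀ r : ℕ, Odd r → 1 < r → r ≤ t ^ 8 →
    t ^ 2 ≤ 8 * (univ.filter fun i => t ^ 40 < d i ∧ r ∣ d i).card

theorem mem_XA (h7 : S_PRD) {Δ : k[X]} (hΔ : Δ ≠ 0) {m n : ℕ} {P : Fin m → k[X]}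
    (hP : Pfam Δ P) :
    ∏ i, P i ∈ XA Δ n ↔ ∏ i, P i ∈ Dn Δ n ∧ TyA (tn n) (dg P) := by
  unfold XA TyA
  rw [mem_filter, pr_card h7 hΔ hP, pr_filter h7 hΔ hP]
  have h1 : ∀ r : ℕ, ((pr (∏ i, P i)).filter fun P => tn n ^ 40 < P.natDegree ∧ r ∣ P.natDegree).card
      = (univ.filter fun i => tn n ^ 40 < dg P i ∧ r ∣ dg P i).card := fun r =>
    pr_filter h7 hΔ hP _
  simp only [h1]
  have h2 : (∀ Q ∈ pr (∏ i, P i), ∀ Q' ∈ pr (∏ i, P i), tn n ^ 40 < Q.natDegree →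
      Q.natDegree = Q'.natDegree → Q = Q') ↔
      ∀ i j, tn n ^ 40 < dg P i → dg P i = dg P j → i = j := by
    rw [((h7 k Δ hΔ).1 (Fin m) P hP).1]
    constructor
    · intro h i j hi hj
      exact hP.inj (h _ (mem_image_of_mem _ (mem_univ i)) _ (mem_image_of_mem _ (mem_univ j)) hi hj)
    · intro h Q hQ Q' hQ' h1 h2
      obtain ⟨i, -, rfl⟩ := mem_image.1 hQ
      obtain ⟨j, -, rfl⟩ := mem_image.1 hQ'
      rw [h i j h1 h2]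
  rw [h2]
  rfl

theorem deg_sum (h7 : S_PRD) {Δ : k[X]} (hΔ : Δ ≠ 0) {m n : ℕ} {P : Fin m → k[X]}
    (hP : Pfam Δ P) (h : ∏ i, P i ∈ Dn Δ n) : ∑ i, (P i).natDegree = n := by
  have h1 := ((h7 k Δ hΔ).2.1 n _ h).2.1
  rw [((h7 k Δ hΔ).1 (Fin m) P hP).1, sum_image fun i _ j _ hij => hP.inj hij] at h1
  exact h1

/-- the moves in a cell -/
theorem xa_move (h7 : S_PRD) {Δ : k[X]} (hΔ : Δ ≠ 0) {n m : ℕ} {P0 : Fin m → k[X]}
    {mv : Finset (Fin m)} (hc : IsCe Δ P0 mv) (h : ∏ i, P0 i ∈ XA Δ n) :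
    ∀ T ∈ Fintype.piFinset (Ce P0 mv), ∏ i, T i ∈ XA Δ n := by
  intro T hT
  obtain ⟨h1, h2, -⟩ := (h7 k Δ hΔ).2.2.2.2.2 m P0 mv hc T hT
  rw [mem_XA h7 hΔ hc.fam] at h
  rw [mem_XA h7 hΔ h1]
  have h3 : dg T = dg P0 := funext h2
  rw [h3]
  refine ⟨?_, h.2⟩
  have h4 := ((h7 k Δ hΔ).1 (Fin m) T h1).2
  have h5 : ∑ i, (T i).natDegree = n := by
    rw [← deg_sum h7 hΔ hc.fam h.1]
    exact sum_congr rfl fun i _ => h2 i
  rwa [h5] at h4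

theorem xa_inj {Δ : k[X]} {n : ℕ} : ∀ D ∈ XA Δ n, ∀ P ∈ pr D, ∀ P' ∈ pr D,
    tn n ^ 40 < P.natDegree → P.natDegree = P'.natDegree → P = P' := by
  intro D hD
  exact (mem_filter.1 hD).2.2.2.1

theorem xa_sub {Δ : k[X]} {n : ℕ} : XA Δ n ⊆ Dn Δ n := filter_subset _ _

/-! ### numerical facts -/

theorem num_nn {t : ℕ} (ht : 64 ≤ t) {σ lam : ℕ} (h1 : 100 * σ ≤ t) (h2 : t ^ 2 ≤ 8 * lam) :
    5 * (2 : ℝ) ^ (4 * σ + 64) * (5 / 6) ^ lam ≤ 5 * 2 ^ 64 / 2 ^ t := by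
  have h3 : 8 * t ≤ lam := by nlinarith
  have h4 : (5 / 6 : ℝ) ^ lam ≤ (5 / 6) ^ (8 * t) :=
    pow_le_pow_of_le_one (by norm_num) (by norm_num) h3
  have h5 : (5 / 6 : ℝ) ^ (8 * t) ≤ (1 / 4) ^ t := by
    rw [pow_mul]
    exact pow_le_pow_left₀ (by norm_num) (by norm_num) t
  have h6 : (2 : ℝ) ^ (4 * σ + 64) ≤ 2 ^ (t + 64) := pow_le_pow_right₀ (by norm_num) (by omega)
  calc 5 * (2 : ℝ) ^ (4 * σ + 64) * (5 / 6) ^ lam ≤ 5 * (2 : ℝ) ^ (t + 64) * (1 / 4) ^ t := by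
        apply mul_le_mul _ (h4.trans h5) (by positivity) (by positivity)
        exact mul_le_mul_of_nonneg_left h6 (by norm_num)
    _ = 5 * 2 ^ 64 / 2 ^ t := by
        have : (1 / 4 : ℝ) ^ t = 1 / (2 ^ t * 2 ^ t) := by
          rw [← mul_pow, div_pow, one_pow]; norm_num
        rw [this, pow_add]
        have h0 : (2 : ℝ) ^ t ≠ 0 := by positivity
        field_simp

theorem pow8 {t : ℕ} (ht : 2 ≤ t) : t ≤ 2 ^ t := Nat.lt_two_pow_self.le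

theorem num_err {t δ m N e : ℕ} (ht : 2 ≤ t) (hδ : δ + 3 ≤ t) (hm : m ≤ t ^ 12)
    {S : ℕ} (hS : S ≤ t ^ 8) (hN : N ≤ t ^ 8) (he : e = (m + 1) * (2 + S) + δ + 3) :
    (m : ℝ) ^ 2 * Real.sqrt ((2 : ℝ) ^ e * 2 ^ (N * m) * (8 * N) / 2 ^ (t ^ 40 / 2)) ≤
      (t : ℝ) ^ 24 / 2 ^ t := by
  have a1 : 1 ≤ t ^ 12 := Nat.one_le_pow _ _ (by omega)
  have a2 : 2 ≤ t ^ 8 := le_trans (by omega : 2 ≤ t) (Nat.le_self_pow (by norm_num) t)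
  have e20 : t ^ 12 * t ^ 8 = t ^ 20 := by rw [← pow_add]
  have a3 : e ≤ 5 * t ^ 20 := by
    have b1 : (m + 1) * (2 + S) ≤ (2 * t ^ 12) * (2 * t ^ 8) :=
      Nat.mul_le_mul (by omega) (by omega)
    have b2 : (2 * t ^ 12) * (2 * t ^ 8) = 4 * t ^ 20 := by rw [← e20]; ring
    have b3 : t ≤ t ^ 20 := Nat.le_self_pow (by norm_num) t
    omega
  have a4 : N * m ≤ t ^ 20 := by
    have b1 : N * m ≤ t ^ 8 * t ^ 12 := Nat.mul_le_mul hN hm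
    rw [mul_comm (t ^ 8), e20] at b1
    exact b1
  have a5 : 8 * N ≤ 2 ^ (t ^ 20 + 3) := by
    have b1 : t ^ 8 ≤ 2 ^ (t ^ 8) := Nat.lt_two_pow_self.le
    have b2 : 2 ^ (t ^ 8) ≤ 2 ^ (t ^ 20) := Nat.pow_le_pow_right (by norm_num)
      (Nat.pow_le_pow_right (by omega) (by norm_num))
    rw [pow_add]
    omega
  have a6 : 12 * t ^ 20 + 6 * t ≤ t ^ 40 / 2 := by
    have b1 : t ^ 40 = t ^ 20 * t ^ 20 := by rw [← pow_add]
    have b2 : 2 ^ 20 ≤ t ^ 20 := Nat.pow_le_pow_left ht 20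
    have b3 : t ≤ t ^ 20 := Nat.le_self_pow (by norm_num) t
    have b4 : 2 ^ 20 * t ^ 20 ≤ t ^ 20 * t ^ 20 := Nat.mul_le_mul_right _ b2
    rw [b1]
    omega
  have a7 : 3 ≤ t ^ 20 := by
    have b2 : 2 ^ 20 ≤ t ^ 20 := Nat.pow_le_pow_left ht 20
    omega
  have h1 : (2 : ℝ) ^ e * 2 ^ (N * m) * (8 * N) ≤ 2 ^ (12 * t ^ 20) := by
    have b1 : (2 : ℝ) ^ e ≤ 2 ^ (5 * t ^ 20) := pow_le_pow_right₀ (by norm_num) a3
    have b2 : (2 : ℝ) ^ (N * m) ≤ 2 ^ (t ^ 20) := pow_le_pow_right₀ (by norm_num) a4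
    have b3 : (8 * N : ℝ) ≤ 2 ^ (t ^ 20 + 3) := by exact_mod_cast a5
    calc (2 : ℝ) ^ e * 2 ^ (N * m) * (8 * N) ≤ 2 ^ (5 * t ^ 20) * 2 ^ (t ^ 20) *
          2 ^ (t ^ 20 + 3) := by
          apply mul_le_mul _ b3 (by positivity) (by positivity)
          exact mul_le_mul b1 b2 (by positivity) (by positivity)
      _ = 2 ^ (5 * t ^ 20 + t ^ 20 + (t ^ 20 + 3)) := by
          rw [pow_add (2 : ℝ) (5 * t ^ 20 + t ^ 20), pow_add (2 : ℝ) (5 * t ^ 20)]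
      _ ≤ 2 ^ (12 * t ^ 20) := pow_le_pow_right₀ (by norm_num) (by omega)
  have h2 : (2 : ℝ) ^ e * 2 ^ (N * m) * (8 * N) / 2 ^ (t ^ 40 / 2) ≤ (1 / 2 ^ t) ^ 2 := by
    rw [div_le_iff₀ (by positivity)]
    have b1 : (2 : ℝ) ^ (12 * t ^ 20 + 6 * t) ≤ 2 ^ (t ^ 40 / 2) :=
      pow_le_pow_right₀ (by norm_num) a6
    have b2 : (2 : ℝ) ^ (12 * t ^ 20) = (1 / 2 ^ t) ^ 2 * 2 ^ (12 * t ^ 20 + 2 * t) := by
      rw [pow_add, pow_mul' (2 : ℝ) 2 t, one_div, inv_pow]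
      have h0 : ((2 : ℝ) ^ t) ^ 2 ≠ 0 := by positivity
      field_simp
    have b3 : (2 : ℝ) ^ (12 * t ^ 20 + 2 * t) ≤ 2 ^ (t ^ 40 / 2) :=
      (pow_le_pow_right₀ (by norm_num) (by omega)).trans b1
    refine h1.trans ?_
    rw [b2]
    exact mul_le_mul_of_nonneg_left b3 (by positivity)
  have h3 : Real.sqrt ((2 : ℝ) ^ e * 2 ^ (N * m) * (8 * N) / 2 ^ (t ^ 40 / 2)) ≤ 1 / 2 ^ t := by
    rw [← Real.sqrt_sq (show (0:ℝ) ≤ 1 / 2 ^ t by positivity)]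
    exact Real.sqrt_le_sqrt h2
  have h4 : (m : ℝ) ^ 2 ≤ (t : ℝ) ^ 24 := by
    have b1 : (m : ℝ) ≤ (t : ℝ) ^ 12 := by exact_mod_cast hm
    calc (m : ℝ) ^ 2 ≤ ((t : ℝ) ^ 12) ^ 2 := pow_le_pow_left₀ (by positivity) b1 2
      _ = (t : ℝ) ^ 24 := by rw [← pow_mul]
  calc (m : ℝ) ^ 2 * Real.sqrt ((2 : ℝ) ^ e * 2 ^ (N * m) * (8 * N) / 2 ^ (t ^ 40 / 2)) ≤
        (t : ℝ) ^ 24 * (1 / 2 ^ t) := mul_le_mul h4 h3 (Real.sqrt_nonneg _) (by positivity)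
    _ = (t : ℝ) ^ 24 / 2 ^ t := by rw [mul_one_div]

theorem num_hyn {t q r d : ℕ} {S : ℝ} (ht : 2 ≤ t) (hq : 4 ≤ q) (hr : r ≤ t ^ 8)
    (hS : S ≤ (t : ℝ) ^ 41) (hd : t ^ 40 < d) :
    12 * 2 ^ r * (S + 2) ≤ Real.sqrt ((q : ℝ) ^ d) := by
  have h1 : (2 : ℝ) ^ d ≤ Real.sqrt ((q : ℝ) ^ d) := by
    apply Real.le_sqrt_of_sq_le
    rw [← pow_mul, mul_comm, pow_mul]
    apply pow_le_pow_left₀ (by norm_num)
    have : (4 : ℝ) ≤ q := by exact_mod_cast hq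
    linarith
  refine le_trans ?_ h1
  have h2 : (2 : ℝ) ^ (t ^ 40) ≤ 2 ^ d := pow_le_pow_right₀ (by norm_num) hd.le
  refine le_trans ?_ h2
  have h3 : (2 : ℝ) ^ r ≤ 2 ^ (t ^ 8) := pow_le_pow_right₀ (by norm_num) hr
  have h4 : (t : ℝ) ≤ 2 ^ t := by exact_mod_cast (Nat.lt_two_pow_self (n := t)).le
  have h5 : (t : ℝ) ^ 41 ≤ 2 ^ (41 * t) := by
    rw [mul_comm, pow_mul]
    exact pow_le_pow_left₀ (by positivity) h4 41
  have h6 : (1 : ℝ) ≤ 2 ^ (41 * t) := one_le_pow₀ (by norm_num)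
  have h7 : 12 * (2 : ℝ) ^ r * (S + 2) ≤ 12 * 2 ^ (t ^ 8) * (3 * 2 ^ (41 * t)) := by
    have b1 : S + 2 ≤ 3 * 2 ^ (41 * t) := by linarith
    calc 12 * (2 : ℝ) ^ r * (S + 2) ≤ 12 * (2 : ℝ) ^ r * (3 * 2 ^ (41 * t)) :=
          mul_le_mul_of_nonneg_left b1 (by positivity)
      _ ≤ 12 * 2 ^ (t ^ 8) * (3 * 2 ^ (41 * t)) :=
          mul_le_mul_of_nonneg_right (mul_le_mul_of_nonneg_left h3 (by norm_num)) (by positivity)
  refine h7.trans ?_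
  have h8 : (12 : ℝ) * 2 ^ (t ^ 8) * (3 * 2 ^ (41 * t)) ≤ 2 ^ (6 + t ^ 8 + 41 * t) := by
    rw [pow_add, pow_add]
    have : (0:ℝ) ≤ 2 ^ (t ^ 8) * 2 ^ (41 * t) := by positivity
    nlinarith
  refine h8.trans (pow_le_pow_right₀ (by norm_num) ?_)
  have c1 : t ^ 40 = t ^ 8 * t ^ 32 := by rw [← pow_add]
  have c2 : 2 ^ 32 ≤ t ^ 32 := Nat.pow_le_pow_left ht 32
  have c3 : t ^ 8 * 2 ^ 32 ≤ t ^ 8 * t ^ 32 := Nat.mul_le_mul_left _ c2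
  have c4 : t ≤ t ^ 8 := Nat.le_self_pow (by norm_num) t
  rw [c1]
  omega

/-! ### the uniform estimates in a cell -/

theorem cell_at (h4 : S_ERA) (h7 : S_PRD) {a b : k[X]} (hk : Hyk k a b) {d₀ : ℕ}
    (hd₀ : ∀ d ≥ d₀, ∀ p q : F2, (p, q) ≠ (0, 0) →
    (1 / 3 : ℝ) * (Irn k d).card ≤ ((Irn k d).filter fun P =>
      (L (a * (a - b)) P, L (a * b) P) ≠ (0, 0) ∧ (L (a * (a - b)) P, L (a * b) P) ≠ (p, q)).card)
    {n : ℕ} (ht : 64 ≤ tn n) (ht0 : d₀ ≤ tn n)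
    (htΔ : (a * b * (a - b)).natDegree + 3 ≤ tn n) {m : ℕ} {P0 : Fin m → k[X]}
    (hc : IsCe (a * b * (a - b)) P0 (univ.filter fun i => tn n ^ 40 < dg P0 i))
    (hX : ∏ i, P0 i ∈ XA (a * b * (a - b)) n) {R : Finset ℕ} (hR : ∀ r ∈ R, Odd r ∧ 1 < r)
    (hRs : ∑ r ∈ R, r ≤ tn n ^ 8) {N : ℕ} (hN0 : 0 < N) (hN : N ≤ tn n ^ 8) :
    Hyn a b P0 (univ.filter fun i => tn n ^ 40 < dg P0 i) R ∧
    ∑ r ∈ R, nn P0 (univ.filter fun i => tn n ^ 40 < dg P0 i) r ≤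
      (tn n : ℝ) ^ 8 * (5 * 2 ^ 64 / 2 ^ tn n) ∧
    erT N P0 (univ.filter fun i => tn n ^ 40 < dg P0 i) (2 ^ eT a b m R) ≤
      (tn n : ℝ) ^ 24 / 2 ^ tn n := by
  obtain ⟨-, hty⟩ := (mem_XA h7 hk.h0 hc.fam).1 hX
  generalize tn n = t at ht ht0 htΔ hc hRs hN hty ⊢
  obtain ⟨y1, y2, y3, y4⟩ := hty
  obtain ⟨mv, hmv⟩ : ∃ mv : Finset (Fin m), mv = univ.filter fun i => t ^ 40 < dg P0 i := ⟨_, rfl⟩
  rw [← hmv] at hc ⊢
  have hmem : ∀ i, i ∈ mv ↔ t ^ 40 < dg P0 i := fun i => by rw [hmv, mem_filter]; simp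
  have hfix : univ.filter (· ∉ mv) = univ.filter fun i => dg P0 i ≤ t ^ 40 := by
    ext i
    rw [mem_filter, mem_filter, hmem, not_lt]
  have hlam : ∀ r, (mv.filter fun i => r ∣ dg P0 i).card =
      (univ.filter fun i => t ^ 40 < dg P0 i ∧ r ∣ dg P0 i).card := fun r => by
    rw [hmv, filter_filter]
  have hr8 : ∀ r ∈ R, r ≤ t ^ 8 := fun r hr => (single_le_sum (f := fun r => r)
    (fun _ _ => Nat.zero_le _) hr).trans hRs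
  have hσ : ∀ r, (univ.filter fun i => i ∉ mv ∧ r ∣ dg P0 i).card ≤
      (univ.filter fun i => dg P0 i ≤ t ^ 40).card := fun r => by
    rw [← hfix]
    exact card_le_card fun i hi => by
      rw [mem_filter] at hi ⊢
      exact ⟨hi.1, hi.2.1⟩
  have hσ' : ∀ r, 100 * (univ.filter fun i => i ∉ mv ∧ r ∣ dg P0 i).card ≤ t := fun r =>
    (Nat.mul_le_mul_left _ (hσ r)).trans y2
  refine ⟨⟨fun j hj p q hpq => hd₀ _ ?_ p q hpq, fun r hr => ⟨(hR r hr).1, (hR r hr).2, ?_, ?_⟩⟩,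
    ?_, ?_⟩
  · have h1 := (hmem j).1 hj
    have h2 : t ≤ t ^ 40 := Nat.le_self_pow (by norm_num) t
    omega
  · intro j hj
    have hj' := (hmem j).1 hj
    apply num_hyn (by omega) (by have := hk.hq; omega) (hr8 r hr) _ hj'
    rw [hfix]
    have h1 : ∑ i ∈ univ.filter (fun i => dg P0 i ≤ t ^ 40), (dg P0 i : ℝ) ≤
        ∑ _i ∈ univ.filter (fun i => dg P0 i ≤ t ^ 40), (t : ℝ) ^ 40 := by
      apply sum_le_sum
      intro i hi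
      have := (mem_filter.1 hi).2
      exact_mod_cast this
    refine h1.trans ?_
    rw [sum_const, nsmul_eq_mul]
    have h2 : ((univ.filter (fun i => dg P0 i ≤ t ^ 40)).card : ℝ) ≤ t := by
      have : (univ.filter (fun i => dg P0 i ≤ t ^ 40)).card ≤ t := by omega
      exact_mod_cast this
    calc ((univ.filter (fun i => dg P0 i ≤ t ^ 40)).card : ℝ) * (t : ℝ) ^ 40 ≤ t * (t : ℝ) ^ 40 :=
          mul_le_mul_of_nonneg_right h2 (by positivity)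
      _ = (t : ℝ) ^ 41 := by ring
  · have h1 := hσ' r
    have h2 := y4 r (hR r hr).1 (hR r hr).2 (hr8 r hr)
    rw [← hlam] at h2
    nlinarith
  · have h1 : ∀ r ∈ R, nn P0 mv r ≤ 5 * 2 ^ 64 / 2 ^ t := by
      intro r hr
      unfold nn
      apply num_nn ht (hσ' r)
      rw [hlam]
      exact y4 r (hR r hr).1 (hR r hr).2 (hr8 r hr)
    refine (sum_le_sum h1).trans ?_
    rw [sum_const, nsmul_eq_mul]
    apply mul_le_mul_of_nonneg_right _ (by positivity)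
    have h2 : R.card ≤ t ^ 8 := by
      refine le_trans ?_ hRs
      rw [card_eq_sum_ones]
      exact sum_le_sum fun r hr => (hR r hr).2.le
    exact_mod_cast h2
  · refine (h4 k hk.hq _ N m (t ^ 40) P0 mv hN0 hc (fun i hi => (hmem i).1 hi) (2 ^ eT a b m R)
      (by positivity)).trans ?_
    exact num_err (δ := (a * b * (a - b)).natDegree) (by omega) htΔ y1 hRs hN (by unfold eT; rfl)

theorem tends32 : Filter.Tendsto (fun t : ℕ => (t : ℝ) ^ 32 / 2 ^ t) Filter.atTop (nhds 0) :=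
  tendsto_pow_const_div_const_pow_of_one_lt 32 (by norm_num)

/-- **The uniform estimates**: eventually in `n`, for all cells of `XA`, all finite sets `R` of odd
orders with sum at most `t ^ 8` and all `0 < N ≤ t ^ 8`. -/
theorem cell_unif (h4 : S_ERA) (h5 : S_GEN) (h6 : S_TNP) (h7 : S_PRD) {a b : k[X]}
    (hk : Hyk k a b) {ε : ℝ} (hε : 0 < ε) : ∀ᶠ n : ℕ in Filter.atTop,
    (a * b * (a - b)).natDegree < tn n ^ 40 ∧
    ∀ (m : ℕ) (P0 : Fin m → k[X]),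
    IsCe (a * b * (a - b)) P0 (univ.filter fun i => tn n ^ 40 < dg P0 i) →
    ∏ i, P0 i ∈ XA (a * b * (a - b)) n → ∀ R : Finset ℕ, (∀ r ∈ R, Odd r ∧ 1 < r) →
    ∑ r ∈ R, r ≤ tn n ^ 8 → ∀ N : ℕ, 0 < N → N ≤ tn n ^ 8 →
    Hyn a b P0 (univ.filter fun i => tn n ^ 40 < dg P0 i) R ∧
    (tn n : ℝ) ^ 8 * (∑ r ∈ R, nn P0 (univ.filter fun i => tn n ^ 40 < dg P0 i) r +
      2 * erT N P0 (univ.filter fun i => tn n ^ 40 < dg P0 i) (2 ^ eT a b m R)) ≤ ε := by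
  obtain ⟨d₀, hd₀⟩ := h5 k hk.hk hk.hm a b hk.h1 hk.h2 hk.h3
  have hT := h6.1
  have e1 : ∀ᶠ t : ℕ in Filter.atTop, (t : ℝ) ^ 32 / 2 ^ t ≤ ε / (5 * 2 ^ 64 + 2) := by
    have := tends32.eventually (gt_mem_nhds (show (0:ℝ) < ε / (5 * 2 ^ 64 + 2) by positivity))
    filter_upwards [this] with t ht using ht.le
  filter_upwards [hT.eventually e1, hT.eventually (Filter.eventually_ge_atTop 64),
    hT.eventually (Filter.eventually_ge_atTop d₀),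
    hT.eventually (Filter.eventually_ge_atTop ((a * b * (a - b)).natDegree + 3))] with n n1 n2 n3 n4
  refine ⟨?_, fun m P0 hc hX R hR hRs N hN0 hN => ?_⟩
  · have h2 : tn n ≤ tn n ^ 40 := Nat.le_self_pow (by norm_num) _
    omega
  obtain ⟨c1, c2, c3⟩ := cell_at h4 h7 hk hd₀ n2 n3 n4 hc hX hR hRs hN0 hN
  refine ⟨c1, ?_⟩
  have ht1 : (1 : ℝ) ≤ tn n := by
    have : 1 ≤ tn n := by omega
    exact_mod_cast this
  have h8 : (0 : ℝ) < 2 ^ tn n := by positivity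
  have h16 : (tn n : ℝ) ^ 16 ≤ (tn n : ℝ) ^ 32 := pow_le_pow_right₀ ht1 (by norm_num)
  have k1 : (tn n : ℝ) ^ 8 * ((tn n : ℝ) ^ 8 * (5 * 2 ^ 64 / 2 ^ tn n)) ≤
      5 * 2 ^ 64 * ((tn n : ℝ) ^ 32 / 2 ^ tn n) := by
    have : (tn n : ℝ) ^ 8 * ((tn n : ℝ) ^ 8 * (5 * 2 ^ 64 / 2 ^ tn n)) =
        5 * 2 ^ 64 * ((tn n : ℝ) ^ 16 / 2 ^ tn n) := by ring
    rw [this]
    apply mul_le_mul_of_nonneg_left _ (by positivity)
    exact div_le_div_of_nonneg_right h16 h8.le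
  have k2 : (tn n : ℝ) ^ 8 * ((tn n : ℝ) ^ 24 / 2 ^ tn n) = (tn n : ℝ) ^ 32 / 2 ^ tn n := by ring
  have k3 : (tn n : ℝ) ^ 8 * (∑ r ∈ R, nn P0 (univ.filter fun i => tn n ^ 40 < dg P0 i) r +
      2 * erT N P0 (univ.filter fun i => tn n ^ 40 < dg P0 i) (2 ^ eT a b m R)) ≤
      (tn n : ℝ) ^ 8 * ((tn n : ℝ) ^ 8 * (5 * 2 ^ 64 / 2 ^ tn n) + 2 * ((tn n : ℝ) ^ 24 /
        2 ^ tn n)) := by
    apply mul_le_mul_of_nonneg_left _ (by positivity)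
    linarith
  refine k3.trans ?_
  rw [mul_add]
  have k4 : (tn n : ℝ) ^ 8 * (2 * ((tn n : ℝ) ^ 24 / 2 ^ tn n)) =
      2 * ((tn n : ℝ) ^ 32 / 2 ^ tn n) := by rw [← k2]; ring
  rw [k4]
  rw [le_div_iff₀ (by positivity)] at n1
  nlinarith

end Pool.Agent.Q150.GR
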