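import Pool.Agent.Q150.GR.Cell

/-! # Project GR (helper269), jobs GR-ENA and GR-ENC: proportions for finitely many orders
(helper150) -/

set_option autoImplicit false
set_option linter.all false

open scoped Classical
open Finset Polynomial

namespace Pool.Agent.Q150.GR

open Pool.Agent.Q269.GR
open Pool.Agent.Y164.PS (L sg)

variable {k : Type} [Field k] [Fintype k]

theorem sum_ind {ι : Type} (s : Finset ι) (p : ι → Prop) [DecidablePred p] :
    ∑ x ∈ s, (if p x then (1 : ℝ) else 0) = ((s.filter p).card : ℝ) := by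
  rw [← sum_filter, sum_const, nsmul_eq_mul, mul_one]

theorem card_split {Δ : k[X]} {n : ℕ} (p : k[X] → Prop) [DecidablePred p] :
    (((Dn Δ n).filter p).card : ℝ) ≤ (((XA Δ n).filter p).card : ℝ) +
      ((Dn Δ n \ XA Δ n).card : ℝ) := by
  have h : (Dn Δ n).filter p ⊆ (XA Δ n).filter p ∪ (Dn Δ n \ XA Δ n) := by
    intro D hD
    rw [mem_filter] at hD
    rw [mem_union, mem_filter, mem_sdiff]
    by_cases hX : D ∈ XA Δ n
    · exact Or.inl ⟨hX, hD.2⟩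
    · exact Or.inr ⟨hD.1, hX⟩
  have h2 := (card_le_card h).trans (card_union_le _ _)
  exact_mod_cast h2

/-- DEC for the typical twists (A) -/
theorem dec_XA (h2 : S_DEC) (h7 : S_PRD) {Δ : k[X]} (hΔ : Δ ≠ 0) {n : ℕ}
    (hdeg : Δ.natDegree < tn n ^ 40) (φ ψ : k[X] → ℝ)
    (h : ∀ (m : ℕ) (P0 : Fin m → k[X]) (mv : Finset (Fin m)),
      (mv = univ.filter fun i => tn n ^ 40 < dg P0 i) → IsCe Δ P0 mv → ∏ i, P0 i ∈ XA Δ n →
      ∑ T ∈ Fintype.piFinset (Ce P0 mv), φ (∏ i, T i) ≤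
        ∑ T ∈ Fintype.piFinset (Ce P0 mv), ψ (∏ i, T i)) :
    ∑ D ∈ XA Δ n, φ D ≤ ∑ D ∈ XA Δ n, ψ D := by
  refine h2 k Δ hΔ (fun d => tn n ^ 40 < d) n (XA Δ n) (fun d hd => hdeg.trans hd) xa_sub
    xa_inj (fun m P0 hc hX => xa_move h7 hΔ hc hX) φ ψ (fun m P0 hc hX => ?_)
  refine h m P0 _ ?_ hc hX
  exact Finset.filter_congr_decidable _ _ _

theorem t_ENA (h1 : S_CLA) (h2 : S_DEC) (h3 : S_TYA) (h4 : S_ERA) (h5 : S_GEN) (h6 : S_TNP)
    (h7 : S_PRD) (h8 : S_AVP) (h9 : S_SMD) : S_ENA := by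
  intro k _ _ a b hk R hR ε hε
  have hε2 : 0 < ε / 2 := by linarith
  obtain ⟨Δ, hΔ⟩ : ∃ Δ, Δ = a * b * (a - b) := ⟨_, rfl⟩
  have hΔ0 : Δ ≠ 0 := by rw [hΔ]; exact hk.h0
  obtain ⟨N, hN⟩ : ∃ N, N = ∏ r ∈ R, r := ⟨_, rfl⟩
  have hNodd : Odd N := by
    rw [hN]
    refine Finset.prod_induction _ Odd (fun a b ha hb => ha.mul hb) odd_one fun r hr => (hR r hr).1
  have hN0 : 0 < N := hNodd.pos
  have hNd : ∀ r ∈ R, r ∣ N := fun r hr => by rw [hN]; exact dvd_prod_of_mem _ hr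
  have hT := h6.1
  obtain ⟨π, hπ⟩ : ∃ π : ℝ, π = ∏ r ∈ R, (1 - dl r) := ⟨_, rfl⟩
  have hπ0 : 0 ≤ π := by
    rw [hπ]
    exact prod_nonneg fun r hr => by have := (h9.1 r (hR r hr).1 (hR r hr).2).2; linarith
  have hπ1 : π ≤ 1 := by
    rw [hπ]
    exact prod_le_one (fun r hr => by have := (h9.1 r (hR r hr).1 (hR r hr).2).2; linarith)
      (fun r hr => by have := (h9.1 r (hR r hr).1 (hR r hr).2).1; linarith)
  filter_upwards [cell_unif h4 h5 h6 h7 hk hε2, h3 k hk.hq Δ hΔ0 (ε / 2) hε2,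
    hT.eventually (Filter.eventually_ge_atTop (max N (∑ r ∈ R, r))),
    hT.eventually (Filter.eventually_ge_atTop 1), Filter.eventually_ge_atTop 1] with
    n n1 n2 n3 n4 n5 f hf
  rw [← hΔ] at n1 ⊢
  rw [← hπ]
  obtain ⟨hdeg, hcell⟩ := n1
  have ht8 : tn n ≤ tn n ^ 8 := Nat.le_self_pow (by norm_num) _
  have hNt : N ≤ tn n ^ 8 := (le_max_left _ _).trans (n3.trans ht8)
  have hSt : ∑ r ∈ R, r ≤ tn n ^ 8 := (le_max_right _ _).trans (n3.trans ht8)
  have ht1 : (1 : ℝ) ≤ (tn n : ℝ) ^ 8 := one_le_pow₀ (by exact_mod_cast n4)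
  have hdec := dec_XA h2 h7 hΔ0 hdeg
    (fun D => π * (if f D then 1 else 0) - ε / 2)
    (fun D => if f D ∧ ∀ r ∈ R, Good r a b D then 1 else 0) (by
      intro m P0 mv hmv hc hX
      obtain ⟨c1, c2⟩ := hcell m P0 (by rw [← hmv]; exact hc) hX R hR hSt N hN0 hNt
      rw [← hmv] at c1 c2
      have hcla := h1 k hk.hk hk.hm hk.hq a b hk.h0 N m P0 _ R (by rw [← hΔ]; exact hc) hNodd hNd
        c1 f hf
      rw [← hπ] at hcla
      obtain ⟨e, he⟩ : ∃ e : ℝ, e = ∑ r ∈ R, nn P0 mv r +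
        2 * erT N P0 mv (2 ^ eT a b m R) := ⟨_, rfl⟩
      rw [← he] at c2 hcla
      have he2 : e ≤ ε / 2 := by
        by_cases h0 : 0 ≤ e
        · nlinarith
        · push Not at h0
          linarith
      rw [sum_sub_distrib, ← mul_sum, sum_ind, sum_ind, sum_const, nsmul_eq_mul]
      have k1 : e * ((Fintype.piFinset (Ce P0 mv)).card : ℝ) ≤
          ((Fintype.piFinset (Ce P0 mv)).card : ℝ) * (ε / 2) := by
        rw [mul_comm]
        exact mul_le_mul_of_nonneg_left he2 (Nat.cast_nonneg _)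
      refine le_trans ?_ hcla
      linarith)
  rw [sum_sub_distrib, ← mul_sum, sum_ind, sum_ind, sum_const, nsmul_eq_mul] at hdec
  have hX : ((XA Δ n).card : ℝ) ≤ (Fintype.card k : ℝ) ^ n := by
    have k1 : ((XA Δ n).card : ℝ) ≤ ((Dn Δ n).card : ℝ) := by
      exact_mod_cast card_le_card xa_sub
    exact k1.trans (h8 k hk.hq Δ hΔ0 n n5).1
  have hs := card_split (Δ := Δ) (n := n) f
  have hsub : (((XA Δ n).filter fun D => f D ∧ ∀ r ∈ R, Good r a b D).card : ℝ) ≤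
      (((Dn Δ n).filter fun D => f D ∧ ∀ r ∈ R, Good r a b D).card : ℝ) := by
    exact_mod_cast card_le_card (filter_subset_filter _ xa_sub)
  have k2 : π * (((Dn Δ n).filter fun D => f D).card : ℝ) ≤
      π * (((XA Δ n).filter f).card : ℝ) + ((Dn Δ n \ XA Δ n).card : ℝ) := by
    have k3 := mul_le_mul_of_nonneg_left hs hπ0
    have k4 : π * ((Dn Δ n \ XA Δ n).card : ℝ) ≤ 1 * ((Dn Δ n \ XA Δ n).card : ℝ) :=
      mul_le_mul_of_nonneg_right hπ1 (Nat.cast_nonneg _)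
    linarith
  have k5 : ((XA Δ n).card : ℝ) * (ε / 2) ≤ ε / 2 * (Fintype.card k : ℝ) ^ n := by
    rw [mul_comm]
    exact mul_le_mul_of_nonneg_left hX hε2.le
  linarith

theorem eb_nonneg (r : ℕ) : 0 ≤ Eb r := by
  unfold Eb
  split_ifs <;> positivity

theorem t_ENC (h1 : S_CLB) (h2 : S_DEC) (h3 : S_TYA) (h4 : S_ERA) (h5 : S_GEN) (h6 : S_TNP)
    (h7 : S_PRD) (h8 : S_AVP) : S_ENC := by
  intro k _ _ a b hk r hr hr1 X hX ε hε
  have hε2 : 0 < ε / 2 := by linarith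
  obtain ⟨Δ, hΔ⟩ : ∃ Δ, Δ = a * b * (a - b) := ⟨_, rfl⟩
  have hΔ0 : Δ ≠ 0 := by rw [hΔ]; exact hk.h0
  have hT := h6.1
  filter_upwards [cell_unif h4 h5 h6 h7 hk hε2, h3 k hk.hq Δ hΔ0 (ε / 2) hε2,
    hT.eventually (Filter.eventually_ge_atTop r),
    hT.eventually (Filter.eventually_ge_atTop 1), Filter.eventually_ge_atTop 1] with
    n n1 n2 n3 n4 n5
  rw [← hΔ] at n1 ⊢
  obtain ⟨hdeg, hcell⟩ := n1
  have ht8 : tn n ≤ tn n ^ 8 := Nat.le_self_pow (by norm_num) _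
  have hrt : r ≤ tn n ^ 8 := n3.trans ht8
  have ht1 : (1 : ℝ) ≤ (tn n : ℝ) ^ 8 := one_le_pow₀ (by exact_mod_cast n4)
  have hdec := dec_XA h2 h7 hΔ0 hdeg
    (fun D => if X ≤ (Nat.card (KD r (xi r) a b D) : ℝ) then 1 else 0)
    (fun _ => Eb r / X + ε / 2) (by
      intro m P0 mv hmv hc hXX
      obtain ⟨c1, c2⟩ := hcell m P0 (by rw [← hmv]; exact hc) hXX {r} (by
        intro r' hr'
        rw [mem_singleton] at hr'
        rw [hr']
        exact ⟨hr, hr1⟩) (by rw [sum_singleton]; exact hrt) r (by omega) hrt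
      rw [← hmv] at c1 c2
      have hclb := h1 k hk.hk hk.hm hk.hq a b hk.h0 m P0 _ r (by rw [← hΔ]; exact hc) c1 X hX
      rw [sum_singleton] at c2
      obtain ⟨e1, he1⟩ : ∃ e1 : ℝ, e1 = nn P0 mv r := ⟨_, rfl⟩
      obtain ⟨e2, he2⟩ : ∃ e2 : ℝ, e2 = erT r P0 mv (2 ^ eT a b m {r}) := ⟨_, rfl⟩
      rw [← he1, ← he2] at c2 hclb
      have h10 : 0 ≤ e1 := by rw [he1]; unfold nn; positivity
      have h20 : 0 ≤ e2 := by
        rw [he2]; unfold erT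
        exact sum_nonneg fun i _ => sum_nonneg fun j _ => by split_ifs <;> positivity
      have he : e1 + e2 ≤ ε / 2 := by
        have : 0 ≤ e1 + 2 * e2 := by positivity
        nlinarith
      rw [sum_ind, sum_const, nsmul_eq_mul]
      refine hclb.trans ?_
      rw [mul_comm ((Fintype.piFinset (Ce P0 mv)).card : ℝ)]
      apply mul_le_mul_of_nonneg_right _ (Nat.cast_nonneg _)
      linarith)
  rw [sum_ind, sum_const, nsmul_eq_mul] at hdec
  have hXD : ((XA Δ n).card : ℝ) ≤ ((Dn Δ n).card : ℝ) := by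
    exact_mod_cast card_le_card xa_sub
  have hX2 : ((XA Δ n).card : ℝ) ≤ (Fintype.card k : ℝ) ^ n :=
    hXD.trans (h8 k hk.hq Δ hΔ0 n n5).1
  have hs := card_split (Δ := Δ) (n := n) (fun D => X ≤ (Nat.card (KD r (xi r) a b D) : ℝ))
  have hE : 0 ≤ Eb r / X := div_nonneg (eb_nonneg r) hX.le
  have k1 : Eb r / X * ((XA Δ n).card : ℝ) ≤ Eb r / X * ((Dn Δ n).card : ℝ) :=
    mul_le_mul_of_nonneg_left hXD hE
  have k5 : ε / 2 * ((XA Δ n).card : ℝ) ≤ ε / 2 * (Fintype.card k : ℝ) ^ n :=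
    mul_le_mul_of_nonneg_left hX2 hε2.le
  linarith

end Pool.Agent.Q150.GR
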